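import Pool.Agent.K4H24.EK.Final

/-!
# An elliptically connected complete Kähler manifold whose fundamental group is not almost abelian

There is a connected complex manifold `X` of dimension three (the quotient of `ℂ³` by the integral
Heisenberg group, which acts by `(a, b, c) (x, y, z) = (x + a, y + b, z + c + a y)`) such that

* `X` carries a complete Kähler metric;
* `X` is elliptically connected. More precisely any two points of `X` lie on the image of one
  holomorphic map from `ℂ`, and any two points of `X` are joined by a chain of closed analytic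
  curves which are images of proper holomorphic maps from `ℂ*`;
* the fundamental group of `X` is isomorphic to the integral Heisenberg group, and it is not almost
  abelian.
-/

set_option autoImplicit false

open scoped Manifold ContDiff Topology ENNReal
open Set Pool.Agent.Y503.HC Pool.Agent.K4H24.EK

namespace Pool.Agent.Results.MP_6f2a8f_ag.HeisenbergQuotient

/-- **The fundamental group of an elliptically connected complete Kähler manifold need not be
almost abelian.** -/
theorem result :
    ∃ (E : Type) (_ : NormedAddCommGroup E) (_ : NormedSpace ℂ E)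
      (X : Type) (_ : TopologicalSpace X) (_ : ChartedSpace E X),
      Module.finrank ℂ E = 3 ∧
      IsManifold 𝓘(ℂ, E) ω X ∧ T2Space X ∧ SecondCountableTopology X ∧ ConnectedSpace X ∧
      (∃ (_ : IsManifold 𝓘(ℝ, E) ∞ X) (g : Metric 𝓘(ℝ, E) X), IsKaehler g ∧ IsComplete g) ∧
      IsEllipticallyConnected E X ∧
      (∀ x y : X, ∃ f : ℂ → X, ContMDiff 𝓘(ℂ, ℂ) 𝓘(ℂ, E) ω f ∧ f 0 = x ∧ f 1 = y) ∧
      (∀ x y : X, IsJoined (IsProperCStar E X) x y) ∧
      ∀ x : X, Nonempty (FundamentalGroup X x ≃* Hz) ∧
        ¬ IsAlmostAbelian (FundamentalGroup X x) :=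
  ⟨C3, inferInstance, inferInstance, XX, inferInstance, inferInstance, finrank_C3, inferInstance,
    inferInstance, inferInstance, inferInstance, ⟨inferInstance, gX, isKaehler_gX, isComplete_gX⟩,
    elliptic, exists_curve, chain,
    fun x => ⟨⟨piEquiv x⟩, not_almostAbelian_of_equiv (piEquiv x)⟩⟩

end Pool.Agent.Results.MP_6f2a8f_ag.HeisenbergQuotient
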